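import Mathlib

set_option autoImplicit false

namespace Pool.Agent.H.MR

open Filter

attribute [local instance] Ultrafilter.add Ultrafilter.addSemigroup

def pr (x : ℕ × ℕ) : ℕ × ℕ := (0, x.1)

theorem map_add' (U V : Ultrafilter (ℕ × ℕ)) : (U + V).map pr = U.map pr + V.map pr :=
  Ultrafilter.coe_inj.mp <| Filter.ext' fun p => by
    rw [Ultrafilter.eventually_add]
    simp only [Ultrafilter.coe_map, eventually_map, Ultrafilter.eventually_add]
    rfl

theorem ex_u : ∃ u : Ultrafilter (ℕ × ℕ), (∀ᶠ x : ℕ × ℕ in u, x.1 = 0 ∧ 0 < x.2) ∧ u + u = u := by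
  refine exists_idempotent_in_compact_add_subsemigroup Ultrafilter.continuous_add_left
    {u : Ultrafilter (ℕ × ℕ) | {x | x.1 = 0 ∧ 0 < x.2} ∈ u} ⟨pure (0, 1), by simp⟩
    (ultrafilter_isClosed_basic _).isCompact ?_
  intro U hU V hV
  change ∀ᶠ x : ℕ × ℕ in ↑(U + V), x.1 = 0 ∧ 0 < x.2
  rw [Ultrafilter.eventually_add]
  filter_upwards [hU] with x hx
  filter_upwards [hV] with y hy
  simp only [Set.mem_setOf_eq, Prod.fst_add, Prod.snd_add] at *
  omega

theorem ex_p : ∃ p : Ultrafilter (ℕ × ℕ), (∀ᶠ x : ℕ × ℕ in p, 0 < x.1) ∧ p + p = p ∧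
    p + p.map pr = p ∧ p.map pr + p = p := by
  obtain ⟨u, hu, uu⟩ := ex_u
  have z1 : ∀ V : Ultrafilter (ℕ × ℕ), V + u.map pr = V := fun V =>
    Ultrafilter.coe_inj.mp <| Filter.ext' fun p => by
      rw [Ultrafilter.eventually_add]
      refine eventually_congr (Eventually.of_forall fun x => ?_)
      rw [Ultrafilter.coe_map, eventually_map]
      have : ∀ᶠ y in u, (p (x + pr y) ↔ p x) := hu.mono fun y hy => by
        rw [show pr y = 0 from Prod.ext rfl hy.1, add_zero]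
      rw [eventually_congr this, eventually_const]
  have z2 : ∀ V : Ultrafilter (ℕ × ℕ), u.map pr + V = V := fun V =>
    Ultrafilter.coe_inj.mp <| Filter.ext' fun p => by
      rw [Ultrafilter.eventually_add, Ultrafilter.coe_map, eventually_map]
      have : ∀ᶠ y in u, ((∀ᶠ x in V, p (pr y + x)) ↔ ∀ᶠ x in V, p x) := hu.mono fun y hy => by
        rw [show pr y = 0 from Prod.ext rfl hy.1]; simp only [zero_add]
      rw [eventually_congr this, eventually_const]
  have hs : (u.map Prod.swap).map pr = u :=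
    Ultrafilter.coe_inj.mp <| Filter.ext' fun p => by
      simp only [Ultrafilter.coe_map, eventually_map]
      refine eventually_congr (hu.mono fun y hy => ?_)
      rw [show pr y.swap = y from Prod.ext hy.1.symm rfl]
  obtain ⟨e, ⟨e1, e2⟩, ee⟩ := exists_idempotent_in_compact_add_subsemigroup
    Ultrafilter.continuous_add_left
    {p : Ultrafilter (ℕ × ℕ) | p.map pr = u ∧ p + u = p}
    ⟨u.map Prod.swap + u, by rw [map_add', hs, z1], by rw [add_assoc, uu]⟩
    (IsClosed.isCompact (IsClosed.inter (s₁ := {p : Ultrafilter (ℕ × ℕ) | p.map pr = u}) (by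
      have : {p : Ultrafilter (ℕ × ℕ) | p.map pr = u} = ⋂ s ∈ u, {p | pr ⁻¹' s ∈ p} := by
        ext p
        simp only [Set.mem_setOf_eq, Set.mem_iInter]
        exact ⟨fun h s hs => by rw [← h] at hs; exact hs,
          fun h => Ultrafilter.eq_of_le (fun s hs => h s hs)⟩
      rw [this]
      exact isClosed_biInter fun s _ => ultrafilter_isClosed_basic _)
      (isClosed_eq (Ultrafilter.continuous_add_left u) continuous_id)))
    (fun x hx y hy => ⟨by rw [map_add', hx.1, hy.1, uu], by rw [add_assoc, hy.2]⟩)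
  have hp : (u + e).map pr = u := by rw [map_add', e1, z2]
  refine ⟨u + e, ?_, ?_, ?_, ?_⟩
  · rw [← hp] at hu
    exact (eventually_map.1 hu).mono fun x hx => hx.2
  · rw [add_assoc, ← add_assoc e, e2, ee]
  · rw [hp, add_assoc, e2]
  · rw [hp, ← add_assoc, uu]

theorem gow {K : Type} [Finite K] (χ : ℕ × ℕ → K) : ∃ a b c d : ℕ, 0 < a ∧
    χ (a, c + b) = χ (a + b, c + d) ∧ χ (b, a + d) = χ (a + b, c + d) := by
  obtain ⟨p, h0, h1, h2, h3⟩ := ex_p
  obtain ⟨k, hk⟩ := Ultrafilter.eq_pure_of_finite (p.map χ)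
  have hA : ∀ᶠ x in p, χ x = k := by
    have : {k} ∈ p.map χ := by rw [hk]; simp
    exact this
  have a1 := hA
  have a2 := hA
  have a3 := hA
  rw [← h1, Ultrafilter.eventually_add] at a1
  rw [← h2, Ultrafilter.eventually_add] at a2
  rw [← h3, Ultrafilter.eventually_add] at a3
  simp only [Ultrafilter.coe_map, eventually_map] at a2 a3
  obtain ⟨v, v0, v1, v2, v3⟩ := (h0.and (a1.and (a2.and a3))).exists
  obtain ⟨w, w1, w2, w3⟩ := (v1.and (v2.and v3)).exists
  refine ⟨v.1, w.1, v.2, w.2, v0, ?_, ?_⟩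
  · exact (show χ (v.1, v.2 + w.1) = k from w2).trans w1.symm
  · refine Eq.trans ?_ w1.symm
    rw [← w3]; congr 1; simp [pr, Prod.ext_iff]

theorem dvd_int {r m : ℕ} (h : m ≤ r) (z : ℤ) (hz : (2 : ZMod (2 ^ r)) ^ m ∣ (z : ZMod (2 ^ r))) :
    (2 : ℤ) ^ m ∣ z := by
  have := map_dvd (ZMod.castHom (pow_dvd_pow 2 h) (ZMod (2 ^ m))) hz
  rw [map_pow, map_ofNat, map_intCast] at this
  have h0 : (2 : ZMod (2 ^ m)) ^ m = 0 := by exact_mod_cast ZMod.natCast_self (2 ^ m)
  rw [h0, zero_dvd_iff, ZMod.intCast_zmod_eq_zero_iff_dvd] at this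
  exact_mod_cast this

theorem sums (e : ℕ) (he : 1 ≤ e) (I : Finset (Fin 3)) (hI : I.Nonempty) :
    ¬ (2 : ℤ) ^ (e + 1) ∣ ∑ i ∈ I, (![1, 1, -(1 + 2 ^ e)] : Fin 3 → ℤ) i := by
  intro h
  have hE : (2 : ℤ) ≤ 2 ^ e := by
    calc (2 : ℤ) = 2 ^ 1 := by norm_num
      _ ≤ 2 ^ e := pow_le_pow_right₀ (by norm_num) he
  have h0 := Int.eq_zero_of_abs_lt_dvd h
  rw [pow_succ, abs_lt, ← Finset.sum_ite_mem_eq, Fin.sum_univ_three] at h0
  obtain ⟨i, hi⟩ := hI
  by_cases a : (0 : Fin 3) ∈ I <;> by_cases b : (1 : Fin 3) ∈ I <;> by_cases c : (2 : Fin 3) ∈ I <;>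
    simp [a, b, c] at h0 <;> first | omega | (fin_cases i <;> simp_all)

end Pool.Agent.H.MR
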